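import Mathlib

/-!
# Graphs with equal weighted safe and connected safe numbers: joins
-/

set_option autoImplicit false

namespace Pool.Agent.Results.MP_9f10ef_co.JoinGraphs

variable {V : Type} [Fintype V]

open Classical in
/-- The weight of a vertex set. -/
noncomputable def wt (w : V → ℝ) (X : Set V) : ℝ := ∑ v, if v ∈ X then w v else 0

/-- `C` is (the vertex set of) a component of the subgraph induced by `S`. -/
def IsComp (G : SimpleGraph V) (S C : Set V) : Prop :=
  C ⊆ S ∧ (G.induce C).Connected ∧ ∀ x ∈ C, ∀ y ∈ S, G.Adj x y → y ∈ C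

/-- `S` is a weighted safe set of `(G, w)`. -/
def WSafe (G : SimpleGraph V) (w : V → ℝ) (S : Set V) : Prop :=
  S.Nonempty ∧ ∀ C D : Set V, IsComp G S C → IsComp G Sᶜ D →
    (∃ x ∈ C, ∃ y ∈ D, G.Adj x y) → wt w D ≤ wt w C

/-- the weighted safe number `s(G, w)` -/
noncomputable def sNum (G : SimpleGraph V) (w : V → ℝ) : ℝ :=
  sInf {r : ℝ | ∃ S : Set V, WSafe G w S ∧ r = wt w S}

/-- the connected weighted safe number `cs(G, w)` -/
noncomputable def csNum (G : SimpleGraph V) (w : V → ℝ) : ℝ :=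
  sInf {r : ℝ | ∃ S : Set V, WSafe G w S ∧ (G.induce S).Connected ∧ r = wt w S}

/-- The class of connected graphs with `s(G, w) = cs(G, w)` for every nonnegative weight. -/
def Gcs (G : SimpleGraph V) : Prop :=
  G.Connected ∧ ∀ w : V → ℝ, (∀ v, 0 ≤ w v) → sNum G w = csNum G w

omit [Fintype V] in
theorem closed_of_connected (G : SimpleGraph V) (T P : Set V) (hT : (G.induce T).Connected)
    (hP : ∀ x ∈ P, ∀ y ∈ T, G.Adj x y → y ∈ P) (hne : ∃ x ∈ T, x ∈ P) : T ⊆ P := by
  obtain ⟨x, hxT, hxP⟩ := hne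
  intro y hy
  obtain ⟨p⟩ := hT.preconnected ⟨x, hxT⟩ ⟨y, hy⟩
  have key : ∀ (u v : T) (q : (G.induce T).Walk u v), u.1 ∈ P → v.1 ∈ P := by
    intro u v q
    induction q with
    | nil => exact id
    | @cons a b c h q ih =>
      intro ha
      exact ih (hP a.1 ha b.1 b.2 h)
  exact key _ _ p hxP

omit [Fintype V] in
theorem exists_comp (G : SimpleGraph V) (S : Set V) (x : V) (hx : x ∈ S) :
    ∃ C, IsComp G S C ∧ x ∈ C := by
  have hsing : ∀ z : V, (G.induce ({z} : Set V)).Connected := by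
    intro z
    have : Subsingleton ({z} : Set V) := by
      constructor
      rintro ⟨a, ha⟩ ⟨b, hb⟩
      simp only [Set.mem_singleton_iff] at ha hb
      subst ha; subst hb; rfl
    have : Nonempty ({z} : Set V) := ⟨⟨z, rfl⟩⟩
    exact ⟨fun a b => by rw [Subsingleton.elim a b]⟩
  refine ⟨{y | ∃ T : Set V, T ⊆ S ∧ x ∈ T ∧ y ∈ T ∧ (G.induce T).Connected}, ⟨?_, ?_, ?_⟩, ?_⟩
  · rintro y ⟨T, h1, _, h3, _⟩
    exact h1 h3
  · refine G.induce_connected_of_patches x ⟨{x}, by simpa using hx, rfl, rfl, hsing x⟩ ?_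
    rintro v ⟨T, h1, h2, h3, h4⟩
    refine ⟨T, fun z hz => ⟨T, h1, h2, hz, h4⟩, h2, h3, h4.preconnected _ _⟩
  · rintro y ⟨T, h1, h2, h3, h4⟩ z hz hyz
    refine ⟨T ∪ {z}, ?_, Or.inl h2, Or.inr rfl, ?_⟩
    · rintro a (ha | ha)
      · exact h1 ha
      · rw [Set.mem_singleton_iff.1 ha]; exact hz
    · exact G.connected_induce_union h4.preconnected (hsing z).preconnected h3 rfl hyz
  · exact ⟨{x}, by simpa using hx, rfl, rfl, hsing x⟩

omit [Fintype V] in
theorem comp_nonempty {G : SimpleGraph V} {S C : Set V} (h : IsComp G S C) : C.Nonempty := by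
  obtain ⟨x⟩ := h.2.1.nonempty
  exact ⟨x.1, x.2⟩

omit [Fintype V] in
theorem sub_comp {G : SimpleGraph V} {S C T : Set V} (h : IsComp G S C) (hTS : T ⊆ S)
    (hT : (G.induce T).Connected) (hne : ∃ x ∈ T, x ∈ C) : T ⊆ C :=
  closed_of_connected G T C hT (fun x hx y hy hxy => h.2.2 x hx y (hTS hy) hxy) hne

omit [Fintype V] in
theorem comp_eq_of_connected {G : SimpleGraph V} {S C : Set V} (hS : (G.induce S).Connected)
    (h : IsComp G S C) : C = S := by
  obtain ⟨x, hx⟩ := comp_nonempty h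
  exact Set.Subset.antisymm h.1 (sub_comp h (le_refl _) hS ⟨x, h.1 hx, hx⟩)

omit [Fintype V] in
theorem comp_disjoint {G : SimpleGraph V} {S C D : Set V} (hC : IsComp G S C)
    (hD : IsComp G S D) (hne : C ≠ D) : Disjoint C D := by
  rw [Set.disjoint_left]
  intro x hxC hxD
  exact hne (Set.Subset.antisymm (sub_comp hD hC.1 hC.2.1 ⟨x, hxC, hxD⟩)
    (sub_comp hC hD.1 hD.2.1 ⟨x, hxD, hxC⟩))

theorem wt_mono (w : V → ℝ) (hw : ∀ v, 0 ≤ w v) {X Y : Set V} (h : X ⊆ Y) :
    wt w X ≤ wt w Y := by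
  unfold wt
  apply Finset.sum_le_sum
  intro v _
  by_cases h1 : v ∈ X
  · rw [if_pos h1, if_pos (h h1)]
  · rw [if_neg h1]
    split_ifs
    · exact hw v
    · exact le_refl _

theorem wt_union (w : V → ℝ) {X Y : Set V} (h : Disjoint X Y) :
    wt w (X ∪ Y) = wt w X + wt w Y := by
  unfold wt
  rw [← Finset.sum_add_distrib]
  apply Finset.sum_congr rfl
  intro v _
  by_cases h1 : v ∈ X
  · have h2 : v ∉ Y := Set.disjoint_left.1 h h1
    simp [h1, h2]
  · by_cases h2 : v ∈ Y
    · simp [h1, h2]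
    · simp [h1, h2]

omit [Fintype V] in
theorem induce_univ_connected {G : SimpleGraph V} (hG : G.Connected) :
    (G.induce (Set.univ : Set V)).Connected := by
  exact (SimpleGraph.induceUnivIso G).connected_iff.2 hG

omit [Fintype V] in
theorem exists_edge_out {G : SimpleGraph V} (hG : G.Connected) {S C : Set V}
    (hC : IsComp G S C) (hne : C ≠ Set.univ) : ∃ x ∈ C, ∃ y ∈ Sᶜ, G.Adj x y := by
  by_contra hno
  push Not at hno
  apply hne
  rw [Set.eq_univ_iff_forall]
  obtain ⟨x, hx⟩ := comp_nonempty hC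
  have := closed_of_connected G Set.univ C (induce_univ_connected hG) (by
    intro a ha b _ hab
    by_cases hb : b ∈ S
    · exact hC.2.2 a ha b hb hab
    · exact absurd hab (hno a ha b hb)) ⟨x, trivial, hx⟩
  intro v
  exact this (Set.mem_univ v)

/-- the exchange step -/
theorem improve (G : SimpleGraph V) (hG : G.Connected)
    (w : V → ℝ) (hw : ∀ v, 0 ≤ w v) (S : Set V) (hS : WSafe G w S)
    (hcompl : Sᶜ.Nonempty → (G.induce Sᶜ).Connected) :
    ∃ S' : Set V, WSafe G w S' ∧ (G.induce S').Connected ∧ wt w S' ≤ wt w S := by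
  by_cases hc : (G.induce S).Connected
  · exact ⟨S, hS, hc, le_refl _⟩
  · have hcne : Sᶜ.Nonempty := by
      by_contra h
      rw [Set.not_nonempty_iff_eq_empty, Set.compl_empty_iff] at h
      rw [h] at hc
      exact hc (induce_univ_connected hG)
    have hD : (G.induce Sᶜ).Connected := hcompl hcne
    have hDc : IsComp G Sᶜ Sᶜ := ⟨le_refl _, hD, fun _ _ y hy _ => hy⟩
    obtain ⟨x0, hx0⟩ := hS.1
    obtain ⟨C0, hC0, _⟩ := exists_comp G S x0 hx0
    obtain ⟨C1, hC1, hmax⟩ := Set.exists_max_image {C : Set V | IsComp G S C} (wt w)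
      (Set.toFinite _) ⟨C0, hC0⟩
    have hC1' : IsComp G S C1 := hC1
    have hproper : C1 ≠ S := by
      rintro rfl
      exact hc hC1'.2.1
    obtain ⟨y, hyS, hyC1⟩ : ∃ y ∈ S, y ∉ C1 := by
      by_contra h
      push Not at h
      exact hproper (Set.Subset.antisymm hC1'.1 h)
    obtain ⟨C2, hC2, hyC2⟩ := exists_comp G S y hyS
    have hne12 : C1 ≠ C2 := by
      rintro rfl
      exact hyC1 hyC2
    have hnu : ∀ C, IsComp G S C → C ≠ Set.univ := by
      rintro C hC rfl
      obtain ⟨z, hz⟩ := hcne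
      exact hz (hC.1 (Set.mem_univ z))
    obtain ⟨a, ha, b, hb, hab⟩ := exists_edge_out hG hC1' (hnu _ hC1')
    have hcon : (G.induce (C1 ∪ Sᶜ)).Connected :=
      G.connected_induce_union hC1'.2.1.preconnected hD.preconnected ha hb hab
    have hdis : Disjoint C1 Sᶜ := by
      rw [Set.disjoint_left]
      intro z hz hz'
      exact hz' (hC1'.1 hz)
    have hle2 : wt w Sᶜ ≤ wt w C2 := by
      obtain ⟨a', ha', b', hb', hab'⟩ := exists_edge_out hG hC2 (hnu _ hC2)
      exact hS.2 C2 Sᶜ hC2 hDc ⟨a', ha', b', hb', hab'⟩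
    refine ⟨C1 ∪ Sᶜ, ⟨⟨a, Or.inl ha⟩, ?_⟩, hcon, ?_⟩
    · intro C D hC hD' _
      have e : C = C1 ∪ Sᶜ := comp_eq_of_connected hcon hC
      obtain ⟨z, hz⟩ := comp_nonempty hD'
      have hDS : D ⊆ S := by
        intro v hv
        by_contra hvS
        exact hD'.1 hv (Or.inr hvS)
      obtain ⟨C3, hC3, hzC3⟩ := exists_comp G S z (hDS hz)
      have h1 : D ⊆ C3 := sub_comp hC3 hDS hD'.2.1 ⟨z, hz, hzC3⟩
      calc wt w D ≤ wt w C3 := wt_mono w hw h1
        _ ≤ wt w C1 := hmax C3 hC3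
        _ ≤ wt w C := by rw [e]; exact wt_mono w hw Set.subset_union_left
    · calc wt w (C1 ∪ Sᶜ) = wt w C1 + wt w Sᶜ := wt_union w hdis
        _ ≤ wt w C1 + wt w C2 := by linarith
        _ = wt w (C1 ∪ C2) := (wt_union w (comp_disjoint hC1' hC2 hne12)).symm
        _ ≤ wt w S := wt_mono w hw (Set.union_subset hC1'.1 hC2.1)

theorem wt_nonneg (w : V → ℝ) (hw : ∀ v, 0 ≤ w v) (X : Set V) : 0 ≤ wt w X := by
  unfold wt
  apply Finset.sum_nonneg
  intro v _
  split_ifs
  · exact hw v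
  · exact le_refl _


/-- `G` is the join of `G[T]` and `G - T`: both are nonempty and all edges between them are
present. -/
def IsJoin (G : SimpleGraph V) (T : Set V) : Prop :=
  T.Nonempty ∧ Tᶜ.Nonempty ∧ ∀ x ∈ T, ∀ y ∈ Tᶜ, G.Adj x y

/-- the number of components of `G[S]` -/
noncomputable def numComp (G : SimpleGraph V) (S : Set V) : ℕ := {C : Set V | IsComp G S C}.ncard

omit [Fintype V] in
theorem IsJoin.swap {G : SimpleGraph V} {T : Set V} (h : IsJoin G T) : IsJoin G Tᶜ := by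
  refine ⟨h.2.1, by rw [compl_compl]; exact h.1, ?_⟩
  intro x hx y hy
  rw [compl_compl] at hy
  exact (h.2.2 y hy x hx).symm

omit [Fintype V] in
theorem join_conn {G : SimpleGraph V} {T : Set V} (h : IsJoin G T) (X : Set V)
    (h1 : ∃ a ∈ X, a ∈ T) (h2 : ∃ b ∈ X, b ∈ Tᶜ) : (G.induce X).Connected := by
  obtain ⟨a, haX, haT⟩ := h1
  obtain ⟨b, hbX, hbT⟩ := h2
  obtain ⟨K, hK, haK⟩ := exists_comp G X a haX
  have hbK : b ∈ K := hK.2.2 a haK b hbX (h.2.2 a haT b hbT)
  have hXK : X ⊆ K := by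
    intro y hy
    by_cases hyT : y ∈ T
    · exact hK.2.2 b hbK y hy (h.2.2 y hyT b hbT).symm
    · exact hK.2.2 a haK y hy (h.2.2 a haT y hyT)
  have : K = X := Set.Subset.antisymm hK.1 hXK
  rw [← this]
  exact hK.2.1

omit [Fintype V] in
theorem join_graph_conn {G : SimpleGraph V} {T : Set V} (h : IsJoin G T) : G.Connected := by
  obtain ⟨a, ha⟩ := h.1
  obtain ⟨b, hb⟩ := h.2.1
  exact (SimpleGraph.induceUnivIso G).connected_iff.1
    (join_conn h Set.univ ⟨a, trivial, ha⟩ ⟨b, trivial, hb⟩)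

theorem wt_eq_sum (G : SimpleGraph V) (S : Set V) (w : V → ℝ) :
    wt w S = ∑ C ∈ (Set.toFinite {C : Set V | IsComp G S C}).toFinset, wt w C := by
  classical
  unfold wt
  rw [Finset.sum_comm]
  apply Finset.sum_congr rfl
  intro v _
  by_cases hv : v ∈ S
  · obtain ⟨C, hC, hvC⟩ := exists_comp G S v hv
    rw [Finset.sum_eq_single C]
    · simp [hv, hvC]
    · intro D hD hne
      rw [Set.Finite.mem_toFinset] at hD
      rw [if_neg]
      intro hvD
      exact Set.disjoint_left.1 (comp_disjoint hD hC hne) hvD hvC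
    · intro h
      rw [Set.Finite.mem_toFinset] at h
      exact absurd hC h
  · rw [if_neg hv]
    symm
    apply Finset.sum_eq_zero
    intro C hC
    rw [Set.Finite.mem_toFinset] at hC
    rw [if_neg]
    intro hvC
    exact hv (hC.1 hvC)

theorem wt_ge (G : SimpleGraph V) (S : Set V) (w : V → ℝ) (a : ℝ)
    (h : ∀ C, IsComp G S C → a ≤ wt w C) : (numComp G S : ℝ) * a ≤ wt w S := by
  rw [wt_eq_sum G S w]
  unfold numComp
  rw [Set.ncard_eq_toFinset_card _ (Set.toFinite _), ← nsmul_eq_mul]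
  apply Finset.card_nsmul_le_sum
  intro C hC
  rw [Set.Finite.mem_toFinset] at hC
  exact h C hC

theorem wt_le (G : SimpleGraph V) (S : Set V) (w : V → ℝ) (b : ℝ)
    (h : ∀ C, IsComp G S C → wt w C ≤ b) : wt w S ≤ (numComp G S : ℝ) * b := by
  rw [wt_eq_sum G S w]
  unfold numComp
  rw [Set.ncard_eq_toFinset_card _ (Set.toFinite _), ← nsmul_eq_mul]
  apply Finset.sum_le_card_nsmul
  intro C hC
  rw [Set.Finite.mem_toFinset] at hC
  exact h C hC

theorem two_le_numComp (G : SimpleGraph V) (S : Set V) (hS : S.Nonempty)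
    (hc : ¬ (G.induce S).Connected) : 2 ≤ numComp G S := by
  obtain ⟨x, hx⟩ := hS
  obtain ⟨C, hC, hxC⟩ := exists_comp G S x hx
  have hne : C ≠ S := by
    rintro rfl
    exact hc hC.2.1
  obtain ⟨y, hyS, hyC⟩ : ∃ y ∈ S, y ∉ C := by
    by_contra h
    push Not at h
    exact hne (Set.Subset.antisymm hC.1 h)
  obtain ⟨D, hD, hyD⟩ := exists_comp G S y hyS
  have hCD : C ≠ D := by
    rintro rfl
    exact hyC hyD
  unfold numComp
  rw [← Set.ncard_pair hCD]
  apply Set.ncard_le_ncard _ (Set.toFinite _)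
  rintro E (rfl | hE)
  · exact hC
  · rw [Set.mem_singleton_iff] at hE
    subst hE
    exact hD

/-- the balanced case -/
theorem balanced (G : SimpleGraph V) (T : Set V) (h : IsJoin G T)
    (hc1 : ¬ (G.induce T).Connected) (hc2 : ¬ (G.induce Tᶜ).Connected)
    (hnum : numComp G T = numComp G Tᶜ) (w : V → ℝ) (hw : ∀ v, 0 ≤ w v) (hs : WSafe G w T) :
    ∃ S' : Set V, WSafe G w S' ∧ (G.induce S').Connected ∧ wt w S' ≤ wt w T := by
  obtain ⟨x0, hx0⟩ := h.1
  obtain ⟨y0, hy0⟩ := h.2.1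
  obtain ⟨C0, hC0, _⟩ := exists_comp G T x0 hx0
  obtain ⟨D0, hD0, _⟩ := exists_comp G Tᶜ y0 hy0
  obtain ⟨A, hA, hmin⟩ := Set.exists_min_image {C : Set V | IsComp G T C} (wt w)
    (Set.toFinite _) ⟨C0, hC0⟩
  obtain ⟨B, hB, hmax⟩ := Set.exists_max_image {C : Set V | IsComp G Tᶜ C} (wt w)
    (Set.toFinite _) ⟨D0, hD0⟩
  have hA' : IsComp G T A := hA
  have hB' : IsComp G Tᶜ B := hB
  obtain ⟨a, ha⟩ := comp_nonempty hA'
  obtain ⟨b, hb⟩ := comp_nonempty hB'
  have hba : wt w B ≤ wt w A :=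
    hs.2 A B hA' hB' ⟨a, ha, b, hb, h.2.2 a (hA'.1 ha) b (hB'.1 hb)⟩
  obtain ⟨a2, ha2T, ha2A⟩ : ∃ y ∈ T, y ∉ A := by
    by_contra hcon
    push Not at hcon
    have : A = T := Set.Subset.antisymm hA'.1 hcon
    rw [this] at hA'
    exact hc1 hA'.2.1
  obtain ⟨b2, hb2T, hb2B⟩ : ∃ y ∈ Tᶜ, y ∉ B := by
    by_contra hcon
    push Not at hcon
    have : B = Tᶜ := Set.Subset.antisymm hB'.1 hcon
    rw [this] at hB'
    exact hc2 hB'.2.1
  have hge := wt_ge G T w (wt w A) (fun C hC => hmin C hC)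
  have hle := wt_le G Tᶜ w (wt w B) (fun C hC => hmax C hC)
  have h2 := two_le_numComp G T h.1 hc1
  have hX : (G.induce ((T \ A) ∪ B)).Connected :=
    join_conn h _ ⟨a2, Or.inl ⟨ha2T, ha2A⟩, ha2T⟩ ⟨b, Or.inr hb, hB'.1 hb⟩
  have hdB : Disjoint (T \ A) B := by
    rw [Set.disjoint_left]
    intro z hz hz'
    exact (hB'.1 hz') hz.1
  have hcompl : ((T \ A) ∪ B)ᶜ = A ∪ (Tᶜ \ B) := by
    ext z
    simp only [Set.mem_compl_iff, Set.mem_union, Set.mem_sdiff]
    constructor
    · intro hz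
      by_cases hzT : z ∈ T
      · left
        by_contra hzA
        exact hz (Or.inl ⟨hzT, hzA⟩)
      · right
        exact ⟨hzT, fun hzB => hz (Or.inr hzB)⟩
    · rintro (hz | ⟨hz1, hz2⟩) (⟨h1, h2⟩ | h3)
      · exact h2 hz
      · exact (hB'.1 h3) (hA'.1 hz)
      · exact hz1 h1
      · exact hz2 h3
  have hXc : (G.induce ((T \ A) ∪ B)ᶜ).Connected := by
    rw [hcompl]
    exact join_conn h _ ⟨a, Or.inl ha, hA'.1 ha⟩ ⟨b2, Or.inr ⟨hb2T, hb2B⟩, hb2T⟩
  have hdA : Disjoint A (Tᶜ \ B) := by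
    rw [Set.disjoint_left]
    intro z hz hz'
    exact hz'.1 (hA'.1 hz)
  have e1 : wt w T = wt w A + wt w (T \ A) := by
    rw [← wt_union w Set.disjoint_sdiff_right, Set.union_sdiff_cancel hA'.1]
  have e2 : wt w Tᶜ = wt w B + wt w (Tᶜ \ B) := by
    rw [← wt_union w Set.disjoint_sdiff_right, Set.union_sdiff_cancel hB'.1]
  have e3 : wt w ((T \ A) ∪ B) = wt w (T \ A) + wt w B := wt_union w hdB
  have e4 : wt w ((T \ A) ∪ B)ᶜ = wt w A + wt w (Tᶜ \ B) := by
    rw [hcompl]
    exact wt_union w hdA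
  rw [← hnum] at hle
  have h2' : (2 : ℝ) ≤ (numComp G T : ℝ) := by exact_mod_cast h2
  have hkey : wt w ((T \ A) ∪ B)ᶜ ≤ wt w ((T \ A) ∪ B) := by
    rw [e3, e4]
    have h5 : 0 ≤ ((numComp G T : ℝ) - 2) * (wt w A - wt w B) :=
      mul_nonneg (by linarith) (by linarith)
    nlinarith
  refine ⟨(T \ A) ∪ B, ⟨⟨b, Or.inr hb⟩, ?_⟩, hX, ?_⟩
  · intro C D hC hD _
    rw [comp_eq_of_connected hX hC, comp_eq_of_connected hXc hD]
    exact hkey
  · rw [e3]
    linarith

theorem csNum_mem (G : SimpleGraph V) (hG : G.Connected) (w : V → ℝ) :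
    ∃ Y : Set V, WSafe G w Y ∧ (G.induce Y).Connected ∧ csNum G w = wt w Y := by
  have huniv : WSafe G w Set.univ := by
    have := hG.nonempty
    refine ⟨Set.univ_nonempty, ?_⟩
    intro C D _ hD _
    obtain ⟨x, hx⟩ := comp_nonempty hD
    exact absurd (Set.mem_univ x) (hD.1 hx)
  have hne : {r : ℝ | ∃ S : Set V, WSafe G w S ∧ (G.induce S).Connected ∧
      r = wt w S}.Nonempty := ⟨_, Set.univ, huniv, induce_univ_connected hG, rfl⟩
  have hfin : {r : ℝ | ∃ S : Set V, WSafe G w S ∧ (G.induce S).Connected ∧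
      r = wt w S}.Finite := by
    refine (Set.finite_range (fun S : Set V => wt w S)).subset ?_
    rintro r ⟨S, _, _, rfl⟩
    exact ⟨S, rfl⟩
  obtain ⟨Y, y1, y2, y3⟩ := hne.csInf_mem hfin
  exact ⟨Y, y1, y2, y3⟩

theorem gcs_of_exchange (G : SimpleGraph V) (hG : G.Connected)
    (key : ∀ w : V → ℝ, (∀ v, 0 ≤ w v) → ∀ S, WSafe G w S →
      ∃ S' : Set V, WSafe G w S' ∧ (G.induce S').Connected ∧ wt w S' ≤ wt w S) : Gcs G := by
  refine ⟨hG, fun w hw => ?_⟩
  have hb1 : BddBelow {r : ℝ | ∃ S : Set V, WSafe G w S ∧ r = wt w S} :=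
    ⟨0, by rintro r ⟨S, _, rfl⟩; exact wt_nonneg w hw S⟩
  have hb2 : BddBelow {r : ℝ | ∃ S : Set V, WSafe G w S ∧ (G.induce S).Connected ∧
      r = wt w S} := ⟨0, by rintro r ⟨S, _, _, rfl⟩; exact wt_nonneg w hw S⟩
  obtain ⟨Y, y1, y2, y3⟩ := csNum_mem G hG w
  apply le_antisymm
  · rw [y3]
    exact csInf_le hb1 ⟨Y, y1, rfl⟩
  · refine le_csInf ⟨_, Y, y1, rfl⟩ ?_
    rintro r ⟨S, h1, rfl⟩
    obtain ⟨S', h2, h3, h4⟩ := key w hw S h1
    exact (csInf_le hb2 ⟨S', h2, h3, rfl⟩).trans h4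

/-- the unbalanced case -/
theorem unbalanced (G : SimpleGraph V) (T : Set V) (h : IsJoin G T)
    (hc1 : ¬ (G.induce T).Connected)
    (hnum : numComp G T < numComp G Tᶜ) : ¬ Gcs G := by
  classical
  rintro ⟨hG, hall⟩
  have hex : ∀ v : V, ∃ C : Set V, (IsComp G T C ∨ IsComp G Tᶜ C) ∧ v ∈ C := by
    intro v
    by_cases hv : v ∈ T
    · obtain ⟨C, hC, h'⟩ := exists_comp G T v hv
      exact ⟨C, Or.inl hC, h'⟩
    · obtain ⟨C, hC, h'⟩ := exists_comp G Tᶜ v hv
      exact ⟨C, Or.inr hC, h'⟩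
  choose K hK hvK using hex
  have huniq : ∀ C : Set V, (IsComp G T C ∨ IsComp G Tᶜ C) → ∀ v ∈ C, K v = C := by
    intro C hC v hv
    by_contra hne
    rcases hK v with h1 | h1 <;> rcases hC with h2 | h2
    · exact Set.disjoint_left.1 (comp_disjoint h1 h2 hne) (hvK v) hv
    · exact (h2.1 hv) (h1.1 (hvK v))
    · exact (h1.1 (hvK v)) (h2.1 hv)
    · exact Set.disjoint_left.1 (comp_disjoint h1 h2 hne) (hvK v) hv
  set w : V → ℝ := fun v => 1 / ((K v).ncard : ℝ) with hwdef
  have hpos : ∀ v, 0 < w v := by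
    intro v
    have : 0 < (K v).ncard := (Set.ncard_pos (Set.toFinite _)).2 ⟨v, hvK v⟩
    have h' : (0 : ℝ) < ((K v).ncard : ℝ) := by exact_mod_cast this
    exact one_div_pos.2 h'
  have hw : ∀ v, 0 ≤ w v := fun v => (hpos v).le
  have hone : ∀ C : Set V, (IsComp G T C ∨ IsComp G Tᶜ C) → wt w C = 1 := by
    intro C hC
    have hCne : C.Nonempty := by
      rcases hC with h1 | h1
      · exact comp_nonempty h1
      · exact comp_nonempty h1
    have hcard : 0 < C.ncard := (Set.ncard_pos (Set.toFinite _)).2 hCne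
    have h' : ((C.ncard : ℕ) : ℝ) ≠ 0 := by exact_mod_cast hcard.ne'
    unfold wt
    have e : ∀ v : V, (if v ∈ C then w v else 0) = if v ∈ C then 1 / (C.ncard : ℝ) else 0 := by
      intro v
      by_cases hv : v ∈ C
      · rw [if_pos hv, if_pos hv, hwdef]
        simp only
        rw [huniq C hC v hv]
      · rw [if_neg hv, if_neg hv]
    rw [Finset.sum_congr rfl (fun v _ => by convert e v)]
    rw [← Finset.sum_filter, Finset.sum_const, nsmul_eq_mul]
    have e2 : (Finset.univ.filter (fun v => v ∈ C)).card = C.ncard := by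
      rw [Set.ncard_eq_toFinset_card' C]
      congr 1
      ext v
      simp
    rw [e2]
    field_simp
  have hT : wt w T = (numComp G T : ℝ) := by
    apply le_antisymm
    · have := wt_le G T w 1 (fun C hC => (hone C (Or.inl hC)).le)
      linarith
    · have := wt_ge G T w 1 (fun C hC => (hone C (Or.inl hC)).ge)
      linarith
  have hTc : wt w Tᶜ = (numComp G Tᶜ : ℝ) := by
    apply le_antisymm
    · have := wt_le G Tᶜ w 1 (fun C hC => (hone C (Or.inr hC)).le)
      linarith
    · have := wt_ge G Tᶜ w 1 (fun C hC => (hone C (Or.inr hC)).ge)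
      linarith
  have hsafe : WSafe G w T := by
    refine ⟨h.1, ?_⟩
    intro C D hC hD _
    rw [hone C (Or.inl hC), hone D (Or.inr hD)]
  have hb1 : BddBelow {r : ℝ | ∃ S : Set V, WSafe G w S ∧ r = wt w S} :=
    ⟨0, by rintro r ⟨S, _, rfl⟩; exact wt_nonneg w hw S⟩
  have hs : sNum G w ≤ wt w T := csInf_le hb1 ⟨T, hsafe, rfl⟩
  obtain ⟨Y, y1, y2, y3⟩ := csNum_mem G hG w
  have hnum' : (numComp G T : ℝ) < (numComp G Tᶜ : ℝ) := by exact_mod_cast hnum
  have hgt : wt w T < wt w Y := by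
    by_cases hA : T ⊆ Y
    · obtain ⟨y, hyY, hyT⟩ : ∃ y ∈ Y, y ∉ T := by
        by_contra hcon
        push Not at hcon
        have : Y = T := Set.Subset.antisymm hcon hA
        rw [this] at y2
        exact hc1 y2
      have hd : Disjoint T {y} := by
        rw [Set.disjoint_singleton_right]
        exact hyT
      have h1 : wt w (T ∪ {y}) ≤ wt w Y := wt_mono w hw (by
        rintro z (hz | hz)
        · exact hA hz
        · rw [Set.mem_singleton_iff.1 hz]; exact hyY)
      rw [wt_union w hd] at h1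
      have h2 : wt w {y} = w y := by
        unfold wt
        rw [Finset.sum_eq_single y]
        · simp
        · intro b _ hb
          simp [hb]
        · intro hcon
          exact absurd (Finset.mem_univ y) hcon
      have := hpos y
      linarith
    · by_cases hB : Tᶜ ⊆ Y
      · have := wt_mono w hw hB
        linarith
      · obtain ⟨a, haT, haY⟩ := Set.not_subset.1 hA
        obtain ⟨b, hbT, hbY⟩ := Set.not_subset.1 hB
        have hYc : (G.induce Yᶜ).Connected := join_conn h Yᶜ ⟨a, haY, haT⟩ ⟨b, hbY, hbT⟩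
        have hYcomp : IsComp G Y Y := ⟨le_refl _, y2, fun _ _ c hc _ => hc⟩
        have hYccomp : IsComp G Yᶜ Yᶜ := ⟨le_refl _, hYc, fun _ _ c hc _ => hc⟩
        have hYu : Y ≠ Set.univ := by
          rintro rfl
          exact haY trivial
        have h1 := y1.2 Y Yᶜ hYcomp hYccomp (exists_edge_out hG hYcomp hYu)
        have h2 : wt w Y + wt w Yᶜ = wt w T + wt w Tᶜ := by
          rw [← wt_union w disjoint_compl_right, ← wt_union w disjoint_compl_right,
            Set.union_compl_self, Set.union_compl_self]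
        linarith
  have := hall w hw
  linarith

/-- **Characterisation of the joins in the class `G^cs`.** -/
theorem result (G : SimpleGraph V) (T : Set V) (h : IsJoin G T) :
    Gcs G ↔ (G.induce T).Connected ∨ (G.induce Tᶜ).Connected ∨
      numComp G T = numComp G Tᶜ := by
  constructor
  · intro hg
    by_contra hno
    push Not at hno
    obtain ⟨h1, h2, h3⟩ := hno
    rcases lt_or_gt_of_ne h3 with h4 | h4
    · exact unbalanced G T h h1 h4 hg
    · exact unbalanced G Tᶜ h.swap h2 (by rw [compl_compl]; exact h4) hg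
  · intro hor
    have hG := join_graph_conn h
    refine gcs_of_exchange G hG ?_
    intro w hw S hS
    by_cases hc : (G.induce S).Connected
    · exact ⟨S, hS, hc, le_refl _⟩
    by_cases hc' : Sᶜ.Nonempty → (G.induce Sᶜ).Connected
    · exact improve G hG w hw S hS hc'
    · push Not at hc'
      have hside : ∀ X : Set V, X.Nonempty → ¬ (G.induce X).Connected → X ⊆ T ∨ X ⊆ Tᶜ := by
        intro X _ hX
        by_contra hcon
        push Not at hcon
        obtain ⟨b, hbX, hbT⟩ := Set.not_subset.1 hcon.1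
        obtain ⟨a, haX, haT⟩ := Set.not_subset.1 hcon.2
        exact hX (join_conn h X ⟨a, haX, by
          by_contra h'
          exact haT h'⟩ ⟨b, hbX, hbT⟩)
      obtain ⟨t, ht⟩ := h.1
      obtain ⟨u, hu⟩ := h.2.1
      have hST : S = T ∨ S = Tᶜ := by
        rcases hside S hS.1 hc with h1 | h1 <;> rcases hside Sᶜ hc'.1 hc'.2 with h2 | h2
        · exfalso
          by_cases huS : u ∈ S
          · exact hu (h1 huS)
          · exact hu (h2 huS)
        · left
          apply Set.Subset.antisymm h1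
          intro z hz
          by_contra hzS
          exact (h2 hzS) hz
        · right
          apply Set.Subset.antisymm h1
          intro z hz
          by_contra hzS
          exact hz (h2 hzS)
        · exfalso
          by_cases htS : t ∈ S
          · exact (h1 htS) ht
          · exact (h2 htS) ht
      rcases hST with rfl | rfl
      · have hn : numComp G S = numComp G Sᶜ := by
          rcases hor with h1 | h1 | h1
          · exact absurd h1 hc
          · exact absurd h1 hc'.2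
          · exact h1
        exact balanced G S h hc hc'.2 hn w hw hS
      · have hcc : ¬ (G.induce T).Connected := by
          have := hc'.2
          rwa [compl_compl] at this
        have hn : numComp G T = numComp G Tᶜ := by
          rcases hor with h1 | h1 | h1
          · exact absurd h1 hcc
          · exact absurd h1 hc
          · exact h1
        exact balanced G Tᶜ h.swap hc (by rw [compl_compl]; exact hcc)
          (by rw [compl_compl]; exact hn.symm) w hw hS

end Pool.Agent.Results.MP_9f10ef_co.JoinGraphs
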